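import Pool.Agent.H833R3.Conn
import Pool.Agent.H833R3.Force

set_option autoImplicit false

/-!
# A weakly compact cardinal suffices for the highly connected partition relation at `ℵ₂`

If `κ` is weakly compact, then some forcing (the Levy collapse of `κ` to `ω₂` with countable
conditions) forces that `κ` is `ℵ₂` and that `ℵ₂ →_hc (ℵ₂)²_ω` holds.

The forcing relation is the one of `Pool.Agent.Helper669.Forcing`: a sentence is the set of the
conditions which force it, `fnot`, `fand`, `fall` are the primitive connectives and `fimp`, `fex`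
are defined from them classically; a name for a subset of a ground model set `X` is a map sending
`x : X` to a set of conditions, and `meets N` says that the generic filter meets `N`.
-/

namespace Pool.Agent.Results.MP_b3ce86_lc.WeaklyCompactSuffices

open Cardinal Pool.Agent.Helper669.Forcing Pool.Agent.H833R3.Levy

/-- `κ` is weakly compact: it is inaccessible and every colouring of the pairs of elements of `κ`
with two colours has a homogeneous set of size `κ`. -/
def WeaklyCompact (κ : Cardinal.{0}) : Prop :=
  κ.IsInaccessible ∧ ∀ c : κ.ord.ToType → κ.ord.ToType → Bool, ∃ H : Set κ.ord.ToType, #H = κ ∧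
    ∃ i, ∀ x ∈ H, ∀ y ∈ H, x < y → c x y = i

section

variable {P : Type} [Preorder P] {K : Type} [LinearOrder K]

/-- In the extension the (ground model) well-ordered set `K` has the order type of the least
cardinal greater than `|X|`: there is no surjection from `X` onto `K`, and there is one onto each
proper initial segment of `K`. -/
def IsNext (P X K : Type) [Preorder P] [LinearOrder K] : Set P :=
  fand (fnot (fex fun R : X → K → Set P => fand (IsFun R) (IsOnto R)))
    (fall fun a : K => fex fun R : X → Set.Iic a → Set P => fand (IsFun R) (IsOnto R))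

/-- In the extension the subset `A` of `K` has at most `|W|` elements: it is covered by the range
of a function from `W` to `K`. -/
def Small (W : Type) (A : K → Set P) : Set P :=
  fex fun R : W → K → Set P =>
    fand (IsFun R) (fall fun x : K => fimp (meets (A x)) (fex fun w => meets (R w x)))

/-- `c` names a colouring of the pairs `x < y` of elements of `K` with natural numbers. -/
def IsColouring (c : K → K → ℕ → Set P) : Set P :=
  fall fun x : K => fall fun y : K => fall fun _ : x < y =>
    fand (fex fun n => meets (c x y n))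
      (fall fun n => fall fun m =>
        fimp (fand (meets (c x y n)) (meets (c x y m))) (fground (n = m)))

/-- `x` and `y` are different and `{x, y}` has colour `n`. -/
def Adj (c : K → K → ℕ → Set P) (n : ℕ) (x y : K) : Set P :=
  fand (fground (x ≠ y)) (meets (c (min x y) (max x y) n))

/-- The graph on the set of all `x` with `φ x`, whose edges are the pairs of colour `n`, is
connected: any two vertices are the ends of a finite path. -/
def Connected (c : K → K → ℕ → Set P) (n : ℕ) (φ : K → Set P) : Set P :=
  fall fun a : K => fall fun b : K => fimp (fand (φ a) (φ b))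
    (fex fun k : ℕ => fex fun v : ℕ → K =>
      fand (fground (v 0 = a ∧ v k = b))
        (fand (fall fun i : ℕ => fall fun _ : i ≤ k => φ (v i))
          (fall fun i : ℕ => fall fun _ : i < k => Adj c n (v i) (v (i + 1)))))

/-- The graph on `X` whose edges are the pairs of colour `n` stays connected when a set of at most
`|W|` vertices is removed. -/
def HighlyConnected (W : Type) (c : K → K → ℕ → Set P) (n : ℕ) (X : K → Set P) : Set P :=
  fall fun A : K → Set P => fimp (Small W A)
    (Connected c n fun x => fand (meets (X x)) (fnot (meets (A x))))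

/-- The relation `ℵ₂ →_hc (ℵ₂)²_ω` in the extension, where `W` and `K` have order types `ω₁` and
`ω₂` there: for every colouring of the pairs of elements of `K` with natural numbers there are a
colour `n` and a subset `X` of `K` which has more than `ℵ₁` elements (that is, `ℵ₂` many) such
that the graph on `X` of the pairs of colour `n` is highly connected. -/
def HCPartition (P W K : Type) [Preorder P] [LinearOrder K] : Set P :=
  fall fun c : K → K → ℕ → Set P => fimp (IsColouring c)
    (fex fun n : ℕ => fex fun X : K → Set P =>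
      fand (fnot (Small W X)) (HighlyConnected W c n X))

end

theorem part_of_weaklyCompact {κ : Cardinal.{0}} (h : WeaklyCompact κ) : PairPart κ.ord.ToType := by
  classical
  intro c
  obtain ⟨H, hH, i, hi⟩ := h.2 fun x y => decide (c x y)
  refine ⟨H, by rw [hH, mk_toType, card_ord], ?_⟩
  cases i
  · exact Or.inr fun x hx y hy hxy => by simpa using hi x hx y hy hxy
  · exact Or.inl fun x hx y hy hxy => by simpa using hi x hx y hy hxy

theorem exists_path_of_rtg {α : Type} {r : α → α → Prop} {a b : α}
    (h : Relation.ReflTransGen r a b) :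
    ∃ k : ℕ, ∃ v : ℕ → α, v 0 = a ∧ v k = b ∧ ∀ i < k, r (v i) (v (i + 1)) := by
  induction h with
  | refl => exact ⟨0, fun _ => a, rfl, rfl, fun i hi => absurd hi (Nat.not_lt_zero i)⟩
  | @tail b c _ hbc ih =>
    obtain ⟨k, v, h0, hk, hv⟩ := ih
    refine ⟨k + 1, fun i => if i ≤ k then v i else c, by simp [h0], by simp, fun i hi => ?_⟩
    rcases Nat.lt_succ_iff_lt_or_eq.1 hi with h | h
    · have h1 : i ≤ k := h.le
      have h2 : i + 1 ≤ k := h
      simp only [h1, h2, if_true]
      exact hv i h
    · subst h
      simp only [le_rfl, if_true]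
      have : ¬ i + 1 ≤ i := by omega
      simp only [this, if_false]
      rw [hk]
      exact hbc

theorem down_Connected {P : Type} [Preorder P] {K : Type} [LinearOrder K]
    (c : K → K → ℕ → Set P) (n : ℕ) (φ : K → Set P) : Down (Connected c n φ) :=
  down_fall fun _ => down_fall fun _ => down_fimp _ _

theorem down_HighlyConnected {P : Type} [Preorder P] {K : Type} [LinearOrder K] (W : Type)
    (c : K → K → ℕ → Set P) (n : ℕ) (X : K → Set P) : Down (HighlyConnected W c n X) :=
  down_fall fun _ => down_fimp _ _

theorem hc {K W : Type} [LinearOrder K] [LinearOrder W] (hK : Inac K) (hP : PairPart K) (hW : Om W)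
    (p : Cond K W) : p ∈ HCPartition (Cond K W) W K := by
  have hWK : #W < #K := by rw [hW.card]; exact hK.unc
  intro c
  refine mem_fimp.2 fun p₀ _ hcol => ?_
  let C : Cond K W → K → K → ℕ → Prop := fun t α β n => t ∈ meets (c α β n)
  have hC : ∀ p α β n, C p α β n → ∀ q ≤ p, C q α β n := fun p α β n h q hq =>
    down_meets _ _ h q hq
  obtain ⟨F, T, hF, hT⟩ := exists_closed (C := C) (p₀ := p₀) hK hP hWK (by
    intro t ht α β hαβ
    obtain ⟨q, hq, n, hn⟩ := mem_fex.1 (hcol α β hαβ).1 t ht
    exact ⟨q, hq, n, hn⟩)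
  obtain ⟨n, pp, hpp, f, hf, hb, hpsi⟩ := exists_path hK hWK hF hT
  have hXd : ∀ α, Down {t | InX F C T f n α t} := fun α t ht t' ht' => InX.mono ht ht'
  refine ⟨pp, hpp, mem_fex_of_mem n (down_fex _) (mem_fex_of_mem
    (fun α => {t | InX F C T f n α t}) (down_fand (down_fnot _) (down_HighlyConnected _ _ _ _))
    ⟨fun t ht hsm => ?_, fun A => mem_fimp.2 fun t ht hsm => ?_⟩)⟩
  · obtain ⟨t1, ht1, R, hR1, hR2⟩ := mem_fex.1 hsm t le_rfl
    obtain ⟨γ, hγ⟩ := exists_bound hK hW hR1
    obtain ⟨t2, ht2, β, hβ, hX⟩ := large hF hf hb hpsi (ht1.trans ht) γ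
    obtain ⟨t3, ht3, h3⟩ := mem_fimp.1 (hR2 β) t2 ht2
      (meets_of_mem (show t2 ∈ {t | InX F C T f n β t} from hX))
    obtain ⟨t4, ht4, w, h4⟩ := mem_fex.1 h3 t3 le_rfl
    exact lt_asymm hβ (hγ w β t4 (ht4.trans (ht3.trans ht2)) h4)
  · obtain ⟨t1, ht1, R, hR1, hR2⟩ := mem_fex.1 hsm t le_rfl
    obtain ⟨γ, hγ⟩ := exists_bound hK hW hR1
    refine ⟨t1, ht1, fun a b => mem_fimp.2 fun t2 ht2 h2 => ?_⟩
    obtain ⟨t3, ht3, hXa⟩ := exists_of_meets (hXd a) h2.1.1
    obtain ⟨t4, ht4, hXb⟩ := exists_of_meets (hXd b) (down_meets _ _ h2.2.1 t3 ht3)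
    have ht42 : t4 ≤ t2 := ht4.trans ht3
    have hS : ∀ x, γ < x → x ∈ {x | t4 ∈ fnot (meets (A x))} := by
      intro x hx t5 ht5 h5
      obtain ⟨t6, ht6, h6⟩ := mem_fimp.1 (hR2 x) t5 (ht5.trans (ht42.trans ht2)) h5
      obtain ⟨t7, ht7, w, h7⟩ := mem_fex.1 h6 t6 le_rfl
      exact lt_asymm hx
        (hγ w x t7 (ht7.trans (ht6.trans (ht5.trans (ht42.trans ht2)))) h7)
    obtain ⟨t5, ht5, hpath⟩ := connected hC hF hf hb hpsi
      (ht42.trans (ht2.trans (ht1.trans ht)))
      (show InX F C T f n a t4 from InX.mono hXa ht4) hXb hS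
      (down_fnot _ _ h2.1.2 t4 ht42) (down_fnot _ _ h2.2.2 t4 ht42)
    obtain ⟨k, v, hv0, hvk, hv⟩ := exists_path_of_rtg hpath
    refine ⟨t5, ht5.trans ht42, mem_fex_of_mem k (down_fex _) (mem_fex_of_mem v
      (down_fand (down_fground _) (down_fand
        (down_fall fun _ => down_fall fun _ => down_fand (down_meets _) (down_fnot _))
        (down_fall fun _ => down_fall fun _ => down_fand (down_fground _) (down_meets _))))
      ⟨⟨hv0, hvk⟩, fun i hi => ?_, fun i hi => ?_⟩)⟩
    · have hmem : ∀ x, InX F C T f n x t5 → x ∈ {x | t4 ∈ fnot (meets (A x))} →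
          t5 ∈ fand (meets {t | InX F C T f n x t}) (fnot (meets (A x))) := fun x h1 h2 =>
        ⟨meets_of_mem (show t5 ∈ {t | InX F C T f n x t} from h1), down_fnot _ _ h2 t5 ht5⟩
      rcases Nat.lt_or_ge i k with h | h
      · exact hmem _ (hv i h).2.1 (hv i h).2.2.2.1
      · have hik : i = k := le_antisymm hi h
        subst hik
        subst hvk
        exact hmem _ (InX.mono hXb ht5) (down_fnot _ _ h2.2.2 t4 ht42)
    · rcases (hv i hi).1 with ⟨h1, h2⟩ | ⟨h1, h2⟩
      · refine ⟨h1.ne, ?_⟩
        rw [min_eq_left h1.le, max_eq_right h1.le]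
        exact h2
      · refine ⟨h1.ne', ?_⟩
        rw [min_eq_right h1.le, max_eq_left h1.le]
        exact h2

/-- If `κ` is weakly compact, then there is a forcing `P` each condition of which forces that
the first uncountable ordinal `ω₁` of the ground model is the first uncountable ordinal of the
extension, that `κ` is the order type `ω₂` of the next cardinal, and that `ℵ₂ →_hc (ℵ₂)²_ω`. -/
theorem result (κ : Cardinal.{0}) (h : WeaklyCompact κ) :
    ∃ (P : Type) (_ : Preorder P), Nonempty P ∧ ∀ p : P,
      p ∈ IsNext P ℕ (ℵ₁ : Cardinal.{0}).ord.ToType ∧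
      p ∈ IsNext P (ℵ₁ : Cardinal.{0}).ord.ToType κ.ord.ToType ∧
      p ∈ HCPartition P (ℵ₁ : Cardinal.{0}).ord.ToType κ.ord.ToType := by
  have hK := inac_toType h.1
  have hP := part_of_weaklyCompact h
  have hW := om_toType
  refine ⟨Cond κ.ord.ToType (ℵ₁ : Cardinal.{0}).ord.ToType, inferInstance, ⟨emp⟩, fun p =>
    ⟨⟨no_surj_nat hW p, fun a => ?_⟩, ⟨no_surj hK hW p, fun a => gen_surj hK hW a p⟩,
      hc hK hP hW p⟩⟩
  have : Nonempty (Set.Iic a) := ⟨⟨a, Set.mem_Iic.2 le_rfl⟩⟩
  have : Countable (Set.Iic a) := (hW.small a).to_subtype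
  obtain ⟨e, he⟩ := exists_surjective_nat (Set.Iic a)
  exact ground_surj e he p

end Pool.Agent.Results.MP_b3ce86_lc.WeaklyCompactSuffices
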